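import Pool.Agent.Helper22.DiagMain
import Pool.Agent.Helper22.Functional

set_option autoImplicit false

namespace Pool.Agent.Results.MP_5e3ef6_lc.DiagLocation

/-! ## Definitions used in the statement -/

/-- A problem: a partial multivalued function on (names in) Baire space, with domain `dom` and set
of values `sol p` at `p ∈ dom`. -/
structure Problem where
  dom : Set (ℕ → ℕ)
  sol : (ℕ → ℕ) → Set (ℕ → ℕ)

/-- The finite sequence of the first `k` values of `p`. -/
def ini (p : ℕ → ℕ) (k : ℕ) : List ℕ := (List.range k).map p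

/-- A partial map `F` on Baire space is computable if there is a partial recursive function `φ`
such that, for every `p` in the domain of `F` and every `n`, the value `F(p)(n)` is produced by `φ`
from `n` and some finite initial segment of `p`, and `φ` produces no other value from `n` and an
initial segment of `p`. -/
def ComputableMap (F : (ℕ → ℕ) →. (ℕ → ℕ)) : Prop :=
  ∃ φ : List ℕ × ℕ →. ℕ, Partrec φ ∧ ∀ p r, r ∈ F p → ∀ n,
    (∃ k, r n ∈ φ (ini p k, n)) ∧ ∀ k m, m ∈ φ (ini p k, n) → m = r n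

/-- The pair `⟨p, q⟩`, by interleaving. -/
def pairing (p q : ℕ → ℕ) : ℕ → ℕ := fun n => if n % 2 = 0 then p (n / 2) else q (n / 2)

/-- `G` is a realizer of `f`: it is a partial map on Baire space that is defined on all of the domain
of `f` and whose values there are solutions. -/
def Realizes (G : (ℕ → ℕ) →. (ℕ → ℕ)) (f : Problem) : Prop :=
  ∀ p ∈ f.dom, ∃ r ∈ G p, r ∈ f.sol p

/-- Weihrauch reducibility `f ≤_W g`: there are computable partial maps `H`, `K` on Baire space such
that for every realizer `G` of `g`, the map `p ↦ H⟨p, G(K(p))⟩` is a realizer of `f`. -/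
def WeihrauchLE (f g : Problem) : Prop :=
  ∃ H K : (ℕ → ℕ) →. (ℕ → ℕ), ComputableMap H ∧ ComputableMap K ∧
    ∀ G : (ℕ → ℕ) →. (ℕ → ℕ), Realizes G g →
      Realizes (fun p => (K p).bind fun x => (G x).bind fun y => H (pairing p y)) f

/-- The relation on `ℕ` enumerated by `p`: the value `Nat.pair x y + 1` of `p` enumerates the pair
`(x, y)`, the value `0` enumerates nothing. -/
def Rel (p : ℕ → ℕ) (x y : ℕ) : Prop := ∃ t, p t = Nat.pair x y + 1

/-- `DIAG`: an instance is (an enumeration of) an equivalence relation on `ℕ` with at least two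
classes, a solution is (the graph, i.e. the values, of) a diagonal function for it. -/
def DIAG : Problem where
  dom := {p | Equivalence (Rel p) ∧ ∃ x y, ¬ Rel p x y}
  sol p := {g | ∀ x, ¬ Rel p (g x) x}

/-- The string of length `n` that is the initial segment of the binary sequence `h`. -/
def str (h : ℕ → ℕ) (n : ℕ) : List Bool := (List.range n).map fun i => decide (h i = 1)

/-- `WKL`: an instance is (the characteristic function, on codes, of) an infinite tree of binary
strings, a solution is an infinite path. -/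
def WKL : Problem where
  dom := {T | (∀ n, T n = 0 ∨ T n = 1) ∧
    (∀ σ τ : List Bool, σ <+: τ → T (Encodable.encode τ) = 1 → T (Encodable.encode σ) = 1) ∧
    ∀ n, ∃ σ : List Bool, σ.length = n ∧ T (Encodable.encode σ) = 1}
  sol T := {h | (∀ n, h n = 0 ∨ h n = 1) ∧ ∀ n, T (Encodable.encode (str h n)) = 1}

/-- `C_ℕ`, closed choice on `ℕ`: an instance enumerates (the value `n + 1` enumerates `n`, the value
`0` nothing) the complement of a nonempty set; a solution is (a name `r` of) a member `r 0` of the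
set. -/
def CN : Problem where
  dom := {p | ∃ n, ∀ t, p t ≠ n + 1}
  sol p := {r | ∀ t, p t ≠ r 0 + 1}

/-- `C_{ℕ × 2^ℕ}`, closed choice on `ℕ × 2^ℕ` (which is Weihrauch equivalent to `C_ℝ`): an instance
enumerates basic open sets `{n} × [σ]`, by the value `Nat.pair n (code of σ) + 1` (the value `0`
enumerates nothing), whose union is not the whole space; a solution is (a name of) a point of the
space outside of this union. The point `(n, h)` has the name `r` with `r 0 = n` and
`r (i + 1) = h i`. -/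
def CNCantor : Problem where
  dom := {p | ∃ n h, (∀ i, h i = 0 ∨ h i = 1) ∧
    ∀ t k, p t ≠ Nat.pair n (Encodable.encode (str h k)) + 1}
  sol p := {r | (∀ i, r (i + 1) = 0 ∨ r (i + 1) = 1) ∧
    ∀ t k, p t ≠ Nat.pair (r 0) (Encodable.encode (str (fun i => r (i + 1)) k)) + 1}

/-! ## Proof: `WKL` is not reducible to `DIAG` -/

open Pool.Agent.Helper22 Pool.Agent.Helper22.DiagCore

theorem WeihrauchLE.spec {f g : Problem} (h : WeihrauchLE f g)
    (hg : ∀ x ∈ g.dom, (g.sol x).Nonempty) :
    ∃ H K : (ℕ → ℕ) →. (ℕ → ℕ), ComputableMap H ∧ ComputableMap K ∧ ∀ p ∈ f.dom,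
      ∃ x ∈ K p, x ∈ g.dom ∧ ∀ y ∈ g.sol x, ∃ r ∈ H (pairing p y), r ∈ f.sol p := by
  classical
  obtain ⟨H, K, hH, hK, hG⟩ := h
  refine ⟨H, K, hH, hK, fun p hp => ?_⟩
  have h0 : Realizes (fun x => ⟨x ∈ g.dom, fun h => (hg x h).some⟩) g := fun x hx =>
    ⟨_, ⟨hx, rfl⟩, (hg x hx).some_mem⟩
  obtain ⟨r, hr, _⟩ := hG _ h0 p hp
  obtain ⟨x, hx, hr'⟩ := Part.mem_bind_iff.1 hr
  obtain ⟨y0, ⟨hxd, -⟩, -⟩ := Part.mem_bind_iff.1 hr'
  refine ⟨x, hx, hxd, fun y hy => ?_⟩
  have h1 : Realizes (fun x' => ⟨x' ∈ g.dom, fun h => if x' = x then y else (hg x' h).some⟩) g := by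
    intro x' hx'
    refine ⟨_, ⟨hx', rfl⟩, ?_⟩
    dsimp only
    split_ifs with he
    · rw [he]; exact hy
    · exact (hg x' hx').some_mem
  obtain ⟨r, hr, hr2⟩ := hG _ h1 p hp
  obtain ⟨x1, hx1, hr'⟩ := Part.mem_bind_iff.1 hr
  obtain ⟨y1, ⟨hxd', hy1⟩, hr''⟩ := Part.mem_bind_iff.1 hr'
  have e1 := Part.mem_unique hx1 hx
  subst e1
  simp only [if_true] at hy1
  subst hy1
  exact ⟨r, hr'', hr2⟩

theorem ini_eq {p q : ℕ → ℕ} {k : ℕ} (h : Agree p q k) : ini p k = ini q k := by
  unfold ini
  apply List.map_congr_left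
  intro t ht
  exact h t (List.mem_range.1 ht)

theorem ComputableMap.cont {F : (ℕ → ℕ) →. (ℕ → ℕ)} (hF : ComputableMap F) {p r : ℕ → ℕ}
    (hr : r ∈ F p) (n : ℕ) : ∃ k, ∀ q r', Agree p q k → r' ∈ F q → r' n = r n := by
  obtain ⟨φ, -, hφ⟩ := hF
  obtain ⟨k, hk⟩ := (hφ p r hr n).1
  refine ⟨k, fun q r' hq hr' => ?_⟩
  rw [ini_eq hq] at hk
  exact ((hφ q r' hr' n).2 k _ hk).symm

def InTree (p : ℕ → ℕ) (σ : List Bool) : Prop :=
  ∀ t < σ.length, ∀ j b, σ[j]? = some b → p t ≠ 2 * j + 1 + b.toNat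

open Classical in
noncomputable def tree (p : ℕ → ℕ) (n : ℕ) : ℕ :=
  if ∃ σ : List Bool, Encodable.encode σ = n ∧ InTree p σ then 1 else 0

theorem tree_iff (p : ℕ → ℕ) (σ : List Bool) : tree p (Encodable.encode σ) = 1 ↔ InTree p σ := by
  unfold tree
  constructor
  · intro h
    split_ifs at h with h1
    · obtain ⟨τ, hτ, h2⟩ := h1
      rw [Encodable.encode_injective hτ] at h2
      exact h2
  · intro h
    rw [if_pos ⟨σ, rfl, h⟩]

theorem length_le_encode (σ : List Bool) : σ.length ≤ Encodable.encode σ := by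
  induction σ with
  | nil => simp
  | cons a l ih =>
    rw [Encodable.encode_list_cons, List.length_cons]
    have := Nat.right_le_pair (Encodable.encode a) (Encodable.encode l)
    omega

theorem tree_agree {p q : ℕ → ℕ} {k : ℕ} (h : Agree p q k) : Agree (tree p) (tree q) k := by
  intro n hn
  have key : ∀ σ : List Bool, Encodable.encode σ = n → (InTree p σ ↔ InTree q σ) := by
    intro σ hσ
    have h1 := length_le_encode σ
    unfold InTree
    refine forall_congr' fun t => forall_congr' fun ht => ?_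
    rw [h t (by omega)]
  unfold tree
  congr 1
  rw [eq_iff_iff]
  exact exists_congr fun σ => and_congr_right fun hσ => key σ hσ

theorem str_getElem? (h : ℕ → ℕ) (n j : ℕ) (b : Bool) :
    (str h n)[j]? = some b ↔ j < n ∧ decide (h j = 1) = b := by
  unfold str
  by_cases hj : j < n
  · simp [hj]
  · simp [hj]

theorem tree_dom {p : ℕ → ℕ} (hp : Ev p) : tree p ∈ WKL.dom := by
  refine ⟨fun n => ?_, ?_, ?_⟩
  · unfold tree
    split_ifs
    · right; rfl
    · left; rfl
  · intro σ τ hστ h
    rw [tree_iff] at h ⊢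
    intro t ht j b hb
    refine h t (lt_of_lt_of_le ht hστ.length_le) j b ?_
    obtain ⟨ρ, rfl⟩ := hστ
    rw [List.getElem?_append_left]
    · exact hb
    · exact (List.getElem?_eq_some_iff.1 hb).1
  · intro n
    classical
    refine ⟨str (fun j => if ∃ t, p t = 2 * j + 1 then 1 else 0) n, by simp [str], ?_⟩
    rw [tree_iff]
    intro t _ j b hb
    rw [str_getElem?] at hb
    obtain ⟨-, rfl⟩ := hb
    by_cases h1 : ∃ t, p t = 2 * j + 1
    · rw [if_pos h1]
      obtain ⟨s, hs⟩ := h1
      intro h2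
      exact hp s t j ⟨hs, by simpa using h2⟩
    · rw [if_neg h1]
      intro h2
      exact h1 ⟨t, by simpa using h2⟩

theorem path {p h : ℕ → ℕ} (hh : h ∈ WKL.sol (tree p)) (t n i : ℕ) (ht : p t = 2 * n + 1 + i)
    (hi : i < 2) : h n ≠ i := by
  intro he
  have h1 := hh.2 (max t n + 1)
  rw [tree_iff] at h1
  refine h1 t (by simp [str]) n (decide (h n = 1)) ?_ ?_
  · rw [str_getElem?]
    exact ⟨by omega, rfl⟩
  · rw [ht, he]
    have : i = 0 ∨ i = 1 := by omega
    rcases this with rfl | rfl <;> simp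

theorem diag_sol_nonempty : ∀ x ∈ DIAG.dom, (DIAG.sol x).Nonempty := by
  classical
  rintro x ⟨he, a, b, hab⟩
  refine ⟨fun y => if Rel x a y then b else a, fun y => ?_⟩
  dsimp only
  split_ifs with h
  · intro h'
    exact hab (he.trans h (he.symm h'))
  · exact h

theorem pairing_agree {p q g h : ℕ → ℕ} {k : ℕ} (h1 : Agree p q k) (h2 : Agree g h k) :
    Agree (pairing p g) (pairing q h) k := by
  intro t ht
  unfold pairing
  rw [h1 (t / 2) (by omega), h2 (t / 2) (by omega)]

theorem not_WKL_le_DIAG : ¬ WeihrauchLE WKL DIAG := by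
  classical
  intro hred
  obtain ⟨H, K, hH, hK, hspec⟩ := hred.spec diag_sol_nonempty
  let R : (ℕ → ℕ) → ℕ → ℕ → Prop := fun p x y => ∃ r ∈ K (tree p), Rel r x y
  let D : (ℕ → ℕ) → (ℕ → ℕ) → ℕ → ℕ := fun p g n =>
    if h : (H (pairing (tree p) g)).Dom then (H (pairing (tree p) g)).get h n else 0
  have hR : ∀ p, Ev p → ∃ r ∈ K (tree p), r ∈ DIAG.dom ∧ R p = Rel r ∧
      ∀ g ∈ DIAG.sol r, ∃ h ∈ H (pairing (tree p) g), h ∈ WKL.sol (tree p) := by
    intro p hp
    obtain ⟨r, hr, hrd, h1⟩ := hspec (tree p) (tree_dom hp)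
    refine ⟨r, hr, hrd, ?_, h1⟩
    funext x y
    apply propext
    constructor
    · rintro ⟨r', hr', h2⟩
      rwa [Part.mem_unique hr' hr] at h2
    · intro h2
      exact ⟨r, hr, h2⟩
  have hD : ∀ p, Ev p → ∀ g, Valid R p g → ∃ h ∈ H (pairing (tree p) g), h ∈ WKL.sol (tree p) ∧
      D p g = h := by
    intro p hp g hg
    obtain ⟨r, hr, hrd, hRr, h1⟩ := hR p hp
    obtain ⟨h, hh, hs⟩ := h1 g (fun x => by have := hg x; rwa [hRr] at this)
    refine ⟨h, hh, hs, ?_⟩
    funext n
    obtain ⟨hd, he⟩ := hh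
    simp only [D]
    rw [dif_pos hd, he]
  have S : Setup R D := by
    refine ⟨fun p hp => ?_, fun p hp => ?_, fun p hp a b hab => ?_, fun p hp g hg n => ?_,
      fun p hp g hg n i t ht hi => ?_, fun p hp g hg n => ?_⟩
    · obtain ⟨r, hr, hrd, hRr, h1⟩ := hR p hp
      rw [hRr]
      exact hrd.1
    · obtain ⟨r, hr, hrd, hRr, h1⟩ := hR p hp
      rw [hRr]
      exact hrd.2
    · obtain ⟨r, hr, t, ht⟩ := hab
      obtain ⟨k, hk⟩ := hK.cont hr t
      refine ⟨k, fun q hq hpq => ?_⟩
      obtain ⟨r', hr', -⟩ := hR q hq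
      exact ⟨r', hr', t, by rw [hk _ _ (tree_agree hpq) hr', ht]⟩
    · obtain ⟨h, hh, hs, he⟩ := hD p hp g hg
      rw [he]
      exact hs.1 n
    · obtain ⟨h, hh, hs, he⟩ := hD p hp g hg
      rw [he]
      exact path hs t n i ht hi
    · obtain ⟨h, hh, hs, he⟩ := hD p hp g hg
      obtain ⟨k, hk⟩ := hH.cont hh n
      refine ⟨k, fun q hq hpq g' hg' hgg => ?_⟩
      obtain ⟨h', hh', hs', he'⟩ := hD q hq g' hg'
      rw [he, he']
      exact hk _ _ (pairing_agree (tree_agree hpq) hgg) hh'
  exact core S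

/-! ## Proof: the two reductions -/

theorem computableMap_of {F : (ℕ → ℕ) → ℕ → ℕ} {e : List ℕ × ℕ → ℕ} {ℓ : ℕ → ℕ} (he : Primrec e)
    (hℓ : Primrec ℓ) (h : ∀ p n, e (ini p (ℓ n), n) = F p n) :
    ComputableMap fun p => Part.some (F p) := by
  refine ⟨fun a => ((if a.1.length = ℓ a.2 then some (e a) else none : Option ℕ) : Part ℕ), ?_, ?_⟩
  · apply Computable.ofOption
    apply Primrec.to_comp
    refine Primrec.ite ?_ (Primrec.option_some.comp he) (Primrec.const none)
    exact Primrec.eq.comp (Primrec.list_length.comp Primrec.fst) (hℓ.comp Primrec.snd)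
  · intro p r hr n
    rw [Part.mem_some_iff] at hr
    subst hr
    have hlen : ∀ k, (ini p k).length = k := fun k => Functional.length_ini _ _
    constructor
    · refine ⟨ℓ n, ?_⟩
      rw [Part.mem_ofOption, Option.mem_def]
      simp only
      rw [if_pos (hlen _), h]
    · intro k m hm
      rw [Part.mem_ofOption, Option.mem_def] at hm
      simp only at hm
      split at hm
      · rename_i hk
        rw [hlen] at hk
        subst hk
        rw [h] at hm
        exact (Option.some.inj hm).symm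
      · simp at hm

theorem getD_ini {p : ℕ → ℕ} {k i : ℕ} (hi : i < k) : (ini p k).getD i 0 = p i :=
  Functional.getD_ini p k i hi

def vv (p : ℕ → ℕ) (t : ℕ) : ℕ := if t = 0 then 0 else p (t - 1)

theorem vv_ini {p : ℕ → ℕ} {k t : ℕ} (ht : t ≤ k) : (0 :: ini p k).getD t 0 = vv p t := by
  unfold vv
  rcases t with _ | t
  · simp
  · rw [List.getD_cons_succ, if_neg (by omega), getD_ini (by omega)]
    rfl

def K1 (p : ℕ → ℕ) (s : ℕ) : ℕ :=
  if (Nat.unpair s).1 = 0 then Nat.pair (Nat.unpair s).2 (Nat.unpair s).2 + 1 else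
    Nat.pair (vv p (Nat.unpair (Nat.unpair s).2).1) (vv p (Nat.unpair (Nat.unpair s).2).2) + 1

theorem computable_K1 : ComputableMap fun p => Part.some (K1 p) := by
  refine computableMap_of (e := fun a => if (Nat.unpair a.2).1 = 0 then
    Nat.pair (Nat.unpair a.2).2 (Nat.unpair a.2).2 + 1 else
    Nat.pair ((0 :: a.1).getD (Nat.unpair (Nat.unpair a.2).2).1 0)
      ((0 :: a.1).getD (Nat.unpair (Nat.unpair a.2).2).2 0) + 1) (ℓ := fun n => n + 1)
    ?_ Primrec.succ ?_
  · have h1 : Primrec fun a : List ℕ × ℕ => (Nat.unpair a.2).1 :=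
      Primrec.fst.comp (Primrec.unpair.comp Primrec.snd)
    have h2 : Primrec fun a : List ℕ × ℕ => (Nat.unpair a.2).2 :=
      Primrec.snd.comp (Primrec.unpair.comp Primrec.snd)
    have h3 : Primrec fun a : List ℕ × ℕ => (Nat.unpair (Nat.unpair a.2).2).1 :=
      Primrec.fst.comp (Primrec.unpair.comp h2)
    have h4 : Primrec fun a : List ℕ × ℕ => (Nat.unpair (Nat.unpair a.2).2).2 :=
      Primrec.snd.comp (Primrec.unpair.comp h2)
    have h5 : Primrec fun a : List ℕ × ℕ => (0 :: a.1 : List ℕ) :=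
      Primrec.list_cons.comp (Primrec.const 0) Primrec.fst
    refine Primrec.ite (Primrec.eq.comp h1 (Primrec.const 0)) ?_ ?_
    · exact Primrec.succ.comp (Primrec₂.natPair.comp h2 h2)
    · exact Primrec.succ.comp (Primrec₂.natPair.comp ((Primrec.list_getD 0).comp h5 h3)
        ((Primrec.list_getD 0).comp h5 h4))
  · intro p n
    have a1 := Nat.unpair_right_le n
    have a2 := Nat.unpair_right_le (Nat.unpair n).2
    have a3 := Nat.unpair_left_le (Nat.unpair n).2
    unfold K1
    simp only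
    rw [vv_ini (by omega), vv_ini (by omega)]

theorem rel_K1 (p : ℕ → ℕ) (x y : ℕ) :
    Rel (K1 p) x y ↔ x = y ∨ ((∃ t, vv p t = x) ∧ ∃ t, vv p t = y) := by
  constructor
  · rintro ⟨s, hs⟩
    unfold K1 at hs
    split_ifs at hs with h
    · left
      have := Nat.pair_eq_pair.1 (Nat.succ_injective hs)
      omega
    · right
      have := Nat.pair_eq_pair.1 (Nat.succ_injective hs)
      exact ⟨⟨_, this.1⟩, ⟨_, this.2⟩⟩
  · rintro (rfl | ⟨⟨t, rfl⟩, ⟨u, rfl⟩⟩)
    · refine ⟨Nat.pair 0 x, ?_⟩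
      unfold K1
      rw [Nat.unpair_pair]
      simp
    · refine ⟨Nat.pair 1 (Nat.pair t u), ?_⟩
      unfold K1
      rw [Nat.unpair_pair]
      simp

theorem CN_le_DIAG : WeihrauchLE CN DIAG := by
  refine ⟨fun w => Part.some (fun _ => w 1 - 1), fun p => Part.some (K1 p), ?_, computable_K1, ?_⟩
  · refine computableMap_of (F := fun w _ => w 1 - 1) (e := fun a => a.1.getD 1 0 - 1)
      (ℓ := fun _ => 2) ?_ (Primrec.const 2) ?_
    · exact Primrec.nat_sub.comp ((Primrec.list_getD 0).comp Primrec.fst (Primrec.const 1))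
        (Primrec.const 1)
    · intro p n
      simp only
      rw [getD_ini (by norm_num)]
  · rintro G hG p ⟨n, hn⟩
    have hv0 : vv p 0 = 0 := by simp [vv]
    have hvs : ∀ t, vv p (t + 1) = p t := fun t => by simp [vv]
    have hdom : K1 p ∈ DIAG.dom := by
      refine ⟨⟨fun x => (rel_K1 p x x).2 (Or.inl rfl), fun {x y} h => ?_, fun {x y z} h h' => ?_⟩,
        0, n + 1, ?_⟩
      · rw [rel_K1] at h ⊢
        rcases h with rfl | ⟨h1, h2⟩
        · exact Or.inl rfl
        · exact Or.inr ⟨h2, h1⟩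
      · rw [rel_K1] at h h' ⊢
        rcases h with rfl | ⟨h1, h2⟩
        · exact h'
        · rcases h' with rfl | ⟨h3, h4⟩
          · exact Or.inr ⟨h1, h2⟩
          · exact Or.inr ⟨h1, h4⟩
      · rw [rel_K1]
        rintro (h | ⟨-, t, ht⟩)
        · omega
        · rcases t with _ | t
          · rw [hv0] at ht; omega
          · rw [hvs] at ht; exact hn t ht
    obtain ⟨g, hg, hs⟩ := hG _ hdom
    refine ⟨fun _ => pairing p g 1 - 1, ?_, ?_⟩
    · refine Part.mem_bind (Part.mem_some _) (Part.mem_bind hg (Part.mem_some _))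
    · intro t ht
      have hp1 : pairing p g 1 = g 0 := by simp [pairing]
      simp only [hp1] at ht
      have h0 := hs 0
      rw [rel_K1] at h0
      push Not at h0
      have h1 : g 0 - 1 + 1 = g 0 := by have := h0.1; omega
      rw [h1] at ht
      exact h0.2 ⟨t + 1, by rw [hvs, ht]⟩ 0 hv0

/-- the strings coded by `c` -/
def dec (c : ℕ) : List Bool := (Encodable.decode c : Option (List Bool)).getD []

theorem dec_encode (σ : List Bool) : dec (Encodable.encode σ) = σ := by
  simp [dec]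

def Cond (v n c : ℕ) : Prop := v ≠ 0 ∧
  ((Nat.unpair (v - 1)).1 = (Nat.unpair n).1 ∧ (dec c)[(Nat.unpair (v - 1)).2]? = some false ∨
   (Nat.unpair (v - 1)).1 = (Nat.unpair n).2 ∧ (dec c)[(Nat.unpair (v - 1)).2]? = some true)

instance (v n c : ℕ) : Decidable (Cond v n c) := by unfold Cond; infer_instance

def K2 (p : ℕ → ℕ) (s : ℕ) : ℕ :=
  if Cond (p (Nat.unpair s).1) (Nat.unpair (Nat.unpair s).2).1 (Nat.unpair (Nat.unpair s).2).2 then
    (Nat.unpair s).2 + 1 else 0

theorem computable_K2 : ComputableMap fun p => Part.some (K2 p) := by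
  refine computableMap_of (e := fun a => if Cond (a.1.getD (Nat.unpair a.2).1 0)
    (Nat.unpair (Nat.unpair a.2).2).1 (Nat.unpair (Nat.unpair a.2).2).2 then
    (Nat.unpair a.2).2 + 1 else 0) (ℓ := fun n => n + 1) ?_ Primrec.succ ?_
  · have h1 : Primrec fun a : List ℕ × ℕ => (Nat.unpair a.2).1 :=
      Primrec.fst.comp (Primrec.unpair.comp Primrec.snd)
    have h2 : Primrec fun a : List ℕ × ℕ => (Nat.unpair a.2).2 :=
      Primrec.snd.comp (Primrec.unpair.comp Primrec.snd)
    have h3 : Primrec fun a : List ℕ × ℕ => (Nat.unpair (Nat.unpair a.2).2).1 :=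
      Primrec.fst.comp (Primrec.unpair.comp h2)
    have h4 : Primrec fun a : List ℕ × ℕ => (Nat.unpair (Nat.unpair a.2).2).2 :=
      Primrec.snd.comp (Primrec.unpair.comp h2)
    have hv : Primrec fun a : List ℕ × ℕ => a.1.getD (Nat.unpair a.2).1 0 :=
      (Primrec.list_getD 0).comp Primrec.fst h1
    have hv1 : Primrec fun a : List ℕ × ℕ => a.1.getD (Nat.unpair a.2).1 0 - 1 :=
      Primrec.nat_sub.comp hv (Primrec.const 1)
    have hx : Primrec fun a : List ℕ × ℕ => (Nat.unpair (a.1.getD (Nat.unpair a.2).1 0 - 1)).1 :=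
      Primrec.fst.comp (Primrec.unpair.comp hv1)
    have hy : Primrec fun a : List ℕ × ℕ => (Nat.unpair (a.1.getD (Nat.unpair a.2).1 0 - 1)).2 :=
      Primrec.snd.comp (Primrec.unpair.comp hv1)
    have ha : Primrec fun a : List ℕ × ℕ => (Nat.unpair (Nat.unpair (Nat.unpair a.2).2).1).1 :=
      Primrec.fst.comp (Primrec.unpair.comp h3)
    have hb : Primrec fun a : List ℕ × ℕ => (Nat.unpair (Nat.unpair (Nat.unpair a.2).2).1).2 :=
      Primrec.snd.comp (Primrec.unpair.comp h3)
    have hd : Primrec fun a : List ℕ × ℕ => dec (Nat.unpair (Nat.unpair a.2).2).2 :=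
      Primrec.option_getD.comp (Primrec.decode.comp h4) (Primrec.const [])
    have hq : Primrec fun a : List ℕ × ℕ => (dec (Nat.unpair (Nat.unpair a.2).2).2)[
        (Nat.unpair (a.1.getD (Nat.unpair a.2).1 0 - 1)).2]? :=
      Primrec.list_getElem?.comp hd hy
    refine Primrec.ite ?_ (Primrec.succ.comp h2) (Primrec.const 0)
    unfold Cond
    refine PrimrecPred.and (PrimrecPred.not (Primrec.eq.comp hv (Primrec.const 0)))
      (PrimrecPred.or (PrimrecPred.and ?_ ?_) (PrimrecPred.and ?_ ?_))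
    · exact Primrec.eq.comp hx ha
    · exact Primrec.eq.comp hq (Primrec.const (some false))
    · exact Primrec.eq.comp hx hb
    · exact Primrec.eq.comp hq (Primrec.const (some true))
  · intro p n
    have a1 := Nat.unpair_left_le n
    unfold K2
    simp only
    rw [getD_ini (by omega)]

def H2 (w : ℕ → ℕ) (x : ℕ) : ℕ :=
  if w (2 * (x + 1) + 1) = 0 then (Nat.unpair (w 1)).1 else (Nat.unpair (w 1)).2

theorem computable_H2 : ComputableMap fun w => Part.some (H2 w) := by
  refine computableMap_of (e := fun a => if a.1.getD (2 * (a.2 + 1) + 1) 0 = 0 then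
    (Nat.unpair (a.1.getD 1 0)).1 else (Nat.unpair (a.1.getD 1 0)).2)
    (ℓ := fun n => 2 * (n + 1) + 2) ?_ ?_ ?_
  · have h1 : Primrec fun a : List ℕ × ℕ => a.1.getD 1 0 :=
      (Primrec.list_getD 0).comp Primrec.fst (Primrec.const 1)
    refine Primrec.ite (Primrec.eq.comp ((Primrec.list_getD 0).comp Primrec.fst ?_)
      (Primrec.const 0)) (Primrec.fst.comp (Primrec.unpair.comp h1))
      (Primrec.snd.comp (Primrec.unpair.comp h1))
    exact Primrec.succ.comp (Primrec.nat_mul.comp (Primrec.const 2)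
      (Primrec.succ.comp Primrec.snd))
  · exact Primrec.succ.comp (Primrec.succ.comp (Primrec.nat_mul.comp (Primrec.const 2)
      Primrec.succ))
  · intro p n
    unfold H2
    simp only
    rw [getD_ini (by omega), getD_ini (by omega)]

theorem DIAG_le_CNCantor : WeihrauchLE DIAG CNCantor := by
  classical
  refine ⟨fun w => Part.some (H2 w), fun p => Part.some (K2 p), computable_H2, computable_K2, ?_⟩
  rintro G hG p ⟨he, a, b, hab⟩
  have hdom : K2 p ∈ CNCantor.dom := by
    refine ⟨Nat.pair a b, fun x => if Rel p a x then 1 else 0, fun i => ?_, fun s k hs => ?_⟩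
    · dsimp only
      split_ifs
      · right; rfl
      · left; rfl
    · unfold K2 at hs
      split_ifs at hs with hc
      have h1 := Nat.succ_injective hs
      obtain ⟨hv, hc⟩ := hc
      rw [h1, Nat.unpair_pair] at hc
      simp only [Nat.unpair_pair, dec_encode, str_getElem?] at hc
      have hrel : Rel p (Nat.unpair (p (Nat.unpair s).1 - 1)).1
          (Nat.unpair (p (Nat.unpair s).1 - 1)).2 :=
        ⟨(Nat.unpair s).1, by rw [Nat.pair_unpair]; omega⟩
      rcases hc with ⟨h2, -, h3⟩ | ⟨h2, -, h3⟩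
      · rw [h2] at hrel
        simp [hrel] at h3
      · rw [h2] at hrel
        have h4 : Rel p a (Nat.unpair (p (Nat.unpair s).1 - 1)).2 := by
          by_contra h
          simp [h] at h3
        exact hab (he.trans h4 (he.symm hrel))
  obtain ⟨r, hr, hs, hs2⟩ := hG _ hdom
  refine ⟨H2 (pairing p r), ?_, ?_⟩
  · exact Part.mem_bind (Part.mem_some _) (Part.mem_bind hr (Part.mem_some _))
  · rintro x ⟨t, ht⟩
    have e1 : pairing p r 1 = r 0 := by simp [pairing]
    have e2 : pairing p r (2 * (x + 1) + 1) = r (x + 1) := by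
      unfold pairing
      rw [if_neg (by omega)]
      congr 1
      omega
    apply hs2 (Nat.pair t (Nat.pair (r 0) (Encodable.encode (str (fun i => r (i + 1)) (x + 1)))))
      (x + 1)
    unfold K2
    rw [Nat.unpair_pair]
    simp only [Nat.unpair_pair]
    rw [if_pos]
    refine ⟨by rw [ht]; omega, ?_⟩
    rw [ht, Nat.add_sub_cancel, Nat.unpair_pair, dec_encode]
    simp only [str_getElem?]
    unfold H2
    rw [e1, e2]
    rcases hs x with h | h
    · left
      simp [h]
    · right
      simp [h]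

/-- **Location of `DIAG` in the Weihrauch degrees**: `C_ℕ ≤_W DIAG ≤_W C_{ℕ × 2^ℕ} ≡_W C_ℝ`, and
`WKL ≰_W DIAG`. -/
theorem result : WeihrauchLE CN DIAG ∧ WeihrauchLE DIAG CNCantor ∧ ¬ WeihrauchLE WKL DIAG :=
  ⟨CN_le_DIAG, DIAG_le_CNCantor, not_WKL_le_DIAG⟩

end Pool.Agent.Results.MP_5e3ef6_lc.DiagLocation
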